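import Pool.Agent.V5helper95.IF.Fin

/-!
# The standard conjecture of Hodge type for products of an arbitrary variety with powers of varieties
# with large Galois images

Let `W` be a Weil cohomology theory, with a coefficient field isomorphic to `ℂ` (for instance the
`ℓ`-adic cohomology with coefficients in an algebraic closure of `ℚ_ℓ`), for a class of smooth
proper varieties over a field `k` of any characteristic, and `G` a class of varieties, closed under
products, with an action of a group `Γ` on the cohomology with the formal properties of a Galois
action (the example: the varieties over a finitely generated subfield `F` of `k`, and its Galois
group).

Let `X_i`, `i ∈ ι`, be any (finite or infinite) family of varieties in `G` with divisors which satisfy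
hard Lefschetz and the standard conjecture of Hodge type, for instance curves, surfaces,
hypersurfaces of odd dimension. Let the transcendental cohomology `T_i` (the orthogonal
complement of the classes of cycles) be in the middle degree, not zero and irreducible under all
subgroups of finite index, of rank `r_i ≥ 3` if the dimension of `X_i` is even. The other hypotheses
(`Big`, `BigFamily`) are

* the space of the skew operators on `T_i` (that is `Sym² T_i` if `dim X_i` is odd and `Λ² T_i` if
  it is even) is an irreducible representation of `Γ`, **or** some element of `Γ` acts on `T_i` by
  a Picard-Lefschetz formula. By Larsen's alternative this is the case if the image of `Γ` is dense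
  in the group of similitudes; for instance for the K3 surfaces with `End T_i = ℚ` (Tankeev,
  Zarhin), for the curves whose Galois image is large, and for the general members of the usual
  families (Deligne, Katz);
* for `i ≠ j` the spaces of the skew operators on `T_i` and `T_j` are not isomorphic (as Lie
  algebras with an action of `Γ`). For odd-dimensional `X_i` this means that `T_i` and `T_j` are
  not isomorphic up to a character.

**Theorem.** For **every** variety `Z` in `G` there is a finite set `E(Z)` of indices such that for
every divisor `B` on `Z` with hard Lefschetz, and every product `T` of `Z` with powers of different
`X_i`, `i ∉ E(Z)` (for even-dimensional `X_i`: with less than `r_i` factors), the standard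
conjecture of Hodge type holds for `T` and the sum of the divisors **if and only if** it holds for
`Z` and `B`; and homological and numerical equivalence are the same on `T` **if and only if** they
are on `Z`. Nothing is assumed on `Z`: neither the conjectures `B`, `D` or Tate's conjecture, nor the
semisimplicity of the action.

The sets `E(Z)` are explicitly bounded: the sum of the numbers `2 ⌊r_i / 2⌋` for `i ∈ E(Z)` is at most
`b - b'`, where `b` is the sum of the Betti numbers of `Z` and `b' ≥ 1` is the dimension of the span
of the classes which are multiplied by scalars by a subgroup of finite index. So no `X_i` with
`2 ⌊r_i / 2⌋ > b - b'` is exceptional; if `Z` has only algebraic cohomology there are no exceptional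
indices. Moreover `E(X_j) ⊆ {j}` and `E(A × B) ⊆ E(A) ∪ E(B)`: the exceptional members can be moved
to the base, and in all products of `Z` with powers of members of the family all members but those
with indices in `E(Z)` can be split off.

The starting result `NodalProducts` treats the case in which for every `i` some element of `Γ` acts
by a Picard-Lefschetz formula on `T_i` and trivially on the cohomology of `Z`, of the other `X_j` and
on the Tate twists, and needs the conjectures for `Z`.

The proof: consider the derivations of the category of the representations of subgroups of
finite index of `Γ`. Their values on `T_i` are a Lie algebra which is stable under `Γ`; it does not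
consist of scalars, so by the irreducibility it contains all skew operators, and they are given by
derivations in all steps of the derived series (for a Picard-Lefschetz transformation `g` this
follows from its logarithm, or from the rank two operators which are obtained from the
reflection). By a Goursat lemma the pairwise not isomorphic Lie algebras are independent of each
other, and by a computation with roots and weights of a maximal torus of the product of these Lie
algebras on the cohomology of `Z`, all but those in a set `E(Z)` as above are also independent of the
cohomology of `Z`. A derivation which is a given skew operator on `T_i` and zero on the rest kills
the multilinear maps on `T_i` with values in the rest which are given by a cycle; then the first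
fundamental theorem of invariant theory shows that the cycles on the product split, and the
positivity on the products with splitting cycles is known.
-/

universe u

namespace Pool.Agent.V5helper95.Old.LargeImages

open Pool.Agent.H914 Pool.Agent.H281R3.HT Pool.Agent.TH125.Gal Pool.Agent.V5helper95.IF

/-- **The standard conjecture of Hodge type for products of an arbitrary variety with powers of
varieties with large Galois images.** -/
theorem result {k : Type u} [Field k] {𝒱 : VarClass k} {ops : CycleOps 𝒱}
    (W : WeilCohomology.{u, 0} ops) (hK : Nonempty (W.K ≃+* ℂ)) {Γ : Type} [Group Γ]
    (χ : Γ →* W.Kˣ) (G : Set (GVar W Γ)) {ι : Type} (X : ι → GVar W Γ)
    (D : ∀ i, (X i).X.Cycles) (h : BigFamily χ G X D) :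
    ∃ E : GVar W Γ → Set ι, Bounded G X E ∧ ∀ Z ∈ G, ∀ (B : Z.X.Cycles) (L : List (ι × ℕ)),
      Z.X.IsCyc 1 B → HardLefschetz W Z.X B → Adm X (E Z) L →
      (HodgeType W (nodalTower X D Z B L).X (nodalTower X D Z B L).D ↔ HodgeType W Z.X B) ∧
      (HomEqNum W (nodalTower X D Z B L).X ↔ HomEqNum W Z.X) :=
  final_hodge hK h

end Pool.Agent.V5helper95.Old.LargeImages
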